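import Pool.Agent.W2helper26.MC.Stm

/-!
# Piece CNT of project MC: the number of the sets with small excess
-/

set_option autoImplicit false

namespace Pool.Agent.W2helper2.MC

open Finset Pool.Agent.W2helper86.MD Pool.Agent.W2helper26.MC

/-- the number of the subsets with at most `k + 8 Δ` elements -/
lemma cnt_le {k Δ : ℕ} (h : 4096 * Δ ^ 2 ≤ 2 * k + 1) :
    8 * cnt (2 * k + 1) (k + 8 * Δ + 1) ≤ 5 * 2 ^ (2 * k + 1) := by
  have h1 : cnt (2 * k + 1) (k + 1) = 4 ^ k := Nat.sum_range_choose_halfway k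
  have h2 : cnt (2 * k + 1) (k + 8 * Δ + 1) ≤ cnt (2 * k + 1) (k + 1) +
      8 * Δ * (2 * Nat.centralBinom k) := by
    unfold cnt
    rw [show k + 8 * Δ + 1 = (k + 1) + 8 * Δ by omega, Finset.sum_range_add]
    apply Nat.add_le_add_left
    refine (Finset.sum_le_card_nsmul _ _ (2 * Nat.centralBinom k) fun i _ => choose_bound k _).trans ?_
    rw [Finset.card_range, smul_eq_mul]
  have h3 : 64 * Δ * Nat.centralBinom k ≤ 4 ^ k := by
    have h4 : (64 * Δ * Nat.centralBinom k) ^ 2 ≤ (4 ^ k) ^ 2 := by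
      calc (64 * Δ * Nat.centralBinom k) ^ 2 = 4096 * Δ ^ 2 * Nat.centralBinom k ^ 2 := by ring
        _ ≤ (2 * k + 1) * Nat.centralBinom k ^ 2 := Nat.mul_le_mul_right _ h
        _ ≤ 16 ^ k := central_bound k
        _ = (4 ^ k) ^ 2 := by rw [← pow_mul, mul_comm k 2, pow_mul]; norm_num
    exact (Nat.pow_le_pow_iff_left (by norm_num)).1 h4
  have h5 : 2 ^ (2 * k + 1) = 2 * 4 ^ k := by
    rw [pow_succ, pow_mul]
    norm_num
    ring
  have h6 : 8 * (8 * Δ * (2 * Nat.centralBinom k)) = 2 * (64 * Δ * Nat.centralBinom k) := by ring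
  rw [h5]
  omega

/-- the weight of a set of variables of one block -/
noncomputable def phi (k Δ : ℕ) (S : Finset (Fin (2 * k + 1))) : ℝ :=
  if S.card ≤ k + 8 * Δ then 1 else 1 / 8

lemma phi_nonneg (k Δ : ℕ) (S : Finset (Fin (2 * k + 1))) : 0 ≤ phi k Δ S := by
  unfold phi
  split_ifs <;> norm_num

lemma sum_phi {k Δ : ℕ} (h : 4096 * Δ ^ 2 ≤ 2 * k + 1) :
    ∑ S, phi k Δ S ≤ 43 / 64 * 2 ^ (2 * k + 1) := by
  have h1 := cnt_eq_card (Fin (2 * k + 1)) (k + 8 * Δ + 1)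
  rw [Fintype.card_fin] at h1
  have h2 := cnt_le h
  rw [h1] at h2
  have h3 : ∀ S : Finset (Fin (2 * k + 1)),
      phi k Δ S = 1 / 8 + 7 / 8 * (if S.card < k + 8 * Δ + 1 then 1 else 0) := by
    intro S
    unfold phi
    by_cases hS : S.card ≤ k + 8 * Δ
    · rw [if_pos hS, if_pos (by omega)]; norm_num
    · rw [if_neg hS, if_neg (by omega)]; norm_num
  rw [Finset.sum_congr rfl fun S _ => h3 S, Finset.sum_add_distrib, ← Finset.mul_sum,
    Finset.sum_const, Finset.card_univ, Fintype.card_finset, Fintype.card_fin, nsmul_eq_mul,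
    Finset.sum_boole]
  have h4 : 8 * ((univ.filter (fun T : Finset (Fin (2 * k + 1)) => T.card < k + 8 * Δ + 1)).card : ℝ)
      ≤ 5 * 2 ^ (2 * k + 1) := by exact_mod_cast h2
  push_cast
  linarith

/-- the sets of the blocks -/
def blk {M n : ℕ} (T : Finset (Fin M × Fin n)) (i : Fin M) : Finset (Fin n) :=
  univ.filter (fun a => (i, a) ∈ T)

lemma blk_card {M n : ℕ} (T : Finset (Fin M × Fin n)) (i : Fin M) :
    (blk T i).card = (T.filter (fun q => q.1 = i)).card := by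
  refine Finset.card_bij (fun a _ => (i, a)) ?_ ?_ ?_
  · intro a ha
    rw [blk, Finset.mem_filter] at ha
    rw [Finset.mem_filter]
    exact ⟨ha.2, rfl⟩
  · intro a _ b _ hab
    exact (Prod.mk.inj hab).2
  · rintro ⟨j, a⟩ hq
    rw [Finset.mem_filter] at hq
    obtain ⟨h1, h2⟩ := hq
    have h3 : j = i := h2
    subst h3
    exact ⟨a, by rw [blk, Finset.mem_filter]; exact ⟨Finset.mem_univ _, h1⟩, rfl⟩

lemma blk_inj {M n : ℕ} : Function.Injective (blk : Finset (Fin M × Fin n) → Fin M → Finset (Fin n)) := by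
  intro T T' h
  ext ⟨i, a⟩
  have h1 := congrFun h i
  have h2 : a ∈ blk T i ↔ a ∈ blk T' i := by rw [h1]
  rw [blk, blk, Finset.mem_filter, Finset.mem_filter] at h2
  simpa using h2

lemma one_le_weight {k m Δ : ℕ} {T : Finset (Fin (8 * m) × Fin (2 * k + 1))}
    (hT : exc k T ≤ 8 * m * Δ) : (1 : ℝ) ≤ 8 ^ m * ∏ i, phi k Δ (blk T i) := by
  set B : Finset (Fin (8 * m)) := univ.filter (fun i => ¬ (blk T i).card ≤ k + 8 * Δ) with hB
  have h1 : ∏ i, phi k Δ (blk T i) = (1 / 8) ^ B.card := by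
    unfold phi
    rw [Finset.prod_ite, Finset.prod_const_one, one_mul, Finset.prod_const]
  have h2 : B.card * (8 * Δ + 1) ≤ 8 * m * Δ := by
    refine le_trans ?_ hT
    unfold exc
    refine le_trans ?_ (Finset.sum_le_sum_of_subset (Finset.subset_univ B))
    rw [← smul_eq_mul]
    refine Finset.card_nsmul_le_sum _ _ _ fun i hi => ?_
    rw [hB, Finset.mem_filter, blk_card] at hi
    omega
  have h3 : B.card ≤ m := by
    by_contra hcon
    have h4 : (m + 1) * (8 * Δ + 1) ≤ 8 * m * Δ :=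
      (Nat.mul_le_mul_right _ (by omega : m + 1 ≤ B.card)).trans h2
    nlinarith
  rw [h1, one_div, inv_pow, ← div_eq_mul_inv, le_div_iff₀ (by positivity), one_mul]
  exact pow_le_pow_right₀ (by norm_num) h3

theorem p_cnt : P_cnt := by
  intro k m Δ h
  classical
  set 𝒯 := univ.filter (fun T : Finset (Fin (8 * m) × Fin (2 * k + 1)) =>
    exc k T ≤ 8 * m * Δ) with h𝒯
  have h1 : (𝒯.card : ℝ) ≤ 8 ^ m * (∑ S, phi k Δ S) ^ (8 * m) := by
    calc (𝒯.card : ℝ) = ∑ _T ∈ 𝒯, (1 : ℝ) := by simp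
      _ ≤ ∑ T ∈ 𝒯, 8 ^ m * ∏ i, phi k Δ (blk T i) := by
          refine Finset.sum_le_sum fun T hT => ?_
          rw [h𝒯, Finset.mem_filter] at hT
          exact one_le_weight hT.2
      _ = 8 ^ m * ∑ g ∈ 𝒯.image blk, ∏ i, phi k Δ (g i) := by
          rw [Finset.sum_image (fun T _ T' _ h => blk_inj h), Finset.mul_sum]
      _ ≤ 8 ^ m * ∑ g : Fin (8 * m) → Finset (Fin (2 * k + 1)), ∏ i, phi k Δ (g i) := by
          apply mul_le_mul_of_nonneg_left _ (by positivity)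
          exact Finset.sum_le_sum_of_subset_of_nonneg (Finset.subset_univ _)
            (fun g _ _ => Finset.prod_nonneg fun i _ => phi_nonneg k Δ (g i))
      _ = 8 ^ m * (∑ S, phi k Δ S) ^ (8 * m) := by
          rw [Fintype.sum_pow]
  have h2 : (∑ S, phi k Δ S) ^ (8 * m) ≤ (43 / 64 * 2 ^ (2 * k + 1)) ^ (8 * m) :=
    pow_le_pow_left₀ (Finset.sum_nonneg fun S _ => phi_nonneg k Δ S) (sum_phi h) _
  have h3 : (𝒯.card : ℝ) * 2 ^ m ≤ 2 ^ (8 * m * (2 * k + 1)) := by
    calc (𝒯.card : ℝ) * 2 ^ m ≤ 8 ^ m * (43 / 64 * 2 ^ (2 * k + 1)) ^ (8 * m) * 2 ^ m := by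
          apply mul_le_mul_of_nonneg_right _ (by positivity)
          exact h1.trans (mul_le_mul_of_nonneg_left h2 (by positivity))
      _ = (16 * (43 / 64 : ℝ) ^ 8) ^ m * 2 ^ (8 * m * (2 * k + 1)) := by
          rw [mul_pow (43 / 64 : ℝ), mul_pow (16 : ℝ), pow_mul (43 / 64 : ℝ) 8 m, ← pow_mul 2 (2 * k + 1),
            show (16 : ℝ) = 8 * 2 by norm_num, mul_pow (8 : ℝ), mul_comm (2 * k + 1) (8 * m)]
          ring
      _ ≤ 1 ^ m * 2 ^ (8 * m * (2 * k + 1)) := by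
          apply mul_le_mul_of_nonneg_right _ (by positivity)
          exact pow_le_pow_left₀ (by positivity) (by norm_num) m
      _ = 2 ^ (8 * m * (2 * k + 1)) := by rw [one_pow, one_mul]
  exact_mod_cast h3

end Pool.Agent.W2helper2.MC
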