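import Pool.Agent.W2helper26.MC.Stm

/-!
# Piece DP of project MC: the direct product lemma, by a dimension count
-/

set_option autoImplicit false

namespace Pool.Agent.W2helper2.MC

open Finset Pool.Agent.W2helper86.MD Pool.Agent.W2helper26.MC

section Span
variable {I K : Type} [DecidableEq I] [Field K]

/-- the span of the monomials of the sets in a family -/
noncomputable def Sp (K : Type) [Field K] (F : Set (Finset I)) : Submodule K ((I → Bool) → K) :=
  Submodule.span K ((fun T => (mon T : (I → Bool) → K)) '' F)

lemma Sp_mon {F : Set (Finset I)} {T : Finset I} (h : T ∈ F) :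
    (mon T : (I → Bool) → K) ∈ Sp K F := Submodule.subset_span ⟨T, h, rfl⟩

lemma Sp_mono {F G : Set (Finset I)} (h : F ⊆ G) {f : (I → Bool) → K} (hf : f ∈ Sp K F) :
    f ∈ Sp K G := Submodule.span_mono (Set.image_mono h) hf

lemma mon_mul (T S : Finset I) : (mon T : (I → Bool) → K) * mon S = mon (T ∪ S) := by
  funext x
  show (mon T x : K) * mon S x = mon (T ∪ S) x
  by_cases hT : ∀ i ∈ T, x i = true
  · by_cases hS : ∀ i ∈ S, x i = true
    · rw [mon_true hT, mon_true hS, mon_true, one_mul]
      intro i hi
      rcases Finset.mem_union.1 hi with h | h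
      · exact hT i h
      · exact hS i h
    · push Not at hS
      obtain ⟨i, hi, hx⟩ := hS
      have hx' : x i = false := by simpa using hx
      rw [mon_false hi hx', mon_false (Finset.mem_union_right T hi) hx', mul_zero]
  · push Not at hT
    obtain ⟨i, hi, hx⟩ := hT
    have hx' : x i = false := by simpa using hx
    rw [mon_false hi hx', mon_false (Finset.mem_union_left S hi) hx', zero_mul]

lemma Sp_mul {F G H : Set (Finset I)} (h : ∀ T ∈ F, ∀ S ∈ G, T ∪ S ∈ H)
    {f g : (I → Bool) → K} (hf : f ∈ Sp K F) (hg : g ∈ Sp K G) : f * g ∈ Sp K H := by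
  have h1 := Submodule.mul_mem_mul hf hg
  unfold Sp at h1
  rw [Submodule.span_mul_span] at h1
  refine Submodule.span_mono ?_ h1
  rintro _ ⟨_, ⟨T, hT, rfl⟩, _, ⟨S, hS, rfl⟩, rfl⟩
  exact ⟨T ∪ S, h T hT S hS, (mon_mul T S).symm⟩

lemma dep_Sp (A : Finset I) : ∀ f : (I → Bool) → K,
    (∀ x y, (∀ i ∈ A, x i = y i) → f x = f y) → f ∈ Sp K {T | T ⊆ A} := by
  induction A using Finset.induction_on with
  | empty =>
    intro f hf
    have h : f = (f (fun _ => false)) • (mon ∅ : (I → Bool) → K) := by
      funext x
      rw [Pi.smul_apply, mon_true (by simp), smul_eq_mul, mul_one]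
      exact hf _ _ (by simp)
    rw [h]
    exact Submodule.smul_mem _ _ (Sp_mon (by simp))
  | insert a A ha ih =>
    intro f hf
    have h0 : ∀ b : Bool, (fun x => f (Function.update x a b)) ∈ Sp K {T | T ⊆ A} := by
      intro b
      refine ih _ (fun x y hxy => hf _ _ fun i hi => ?_)
      by_cases hia : i = a
      · subst hia; simp
      · rw [Function.update_of_ne hia, Function.update_of_ne hia]
        exact hxy i (Finset.mem_of_mem_insert_of_ne hi hia)
    have e : f = (fun x => f (Function.update x a false)) + mon {a} *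
        ((fun x => f (Function.update x a true)) - (fun x => f (Function.update x a false))) := by
      funext x
      show f x = f (Function.update x a false) + mon {a} x *
        (f (Function.update x a true) - f (Function.update x a false))
      cases hx : x a
      · have h1 : Function.update x a false = x := by
          rw [← hx]; exact Function.update_eq_self a x
        rw [h1, mon_false (Finset.mem_singleton_self a) hx, zero_mul, add_zero]
      · have h1 : Function.update x a true = x := by
          rw [← hx]; exact Function.update_eq_self a x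
        rw [h1, mon_true (by
          intro i hi
          rw [Finset.mem_singleton.1 hi]; exact hx)]
        ring
    rw [e]
    refine Submodule.add_mem _ (Sp_mono ?_ (h0 false)) ?_
    · intro T hT
      exact (show T ⊆ A from hT).trans (Finset.subset_insert a A)
    · refine Sp_mul (F := {{a}}) (G := {T | T ⊆ A}) ?_ (Sp_mon rfl)
        (Submodule.sub_mem _ (h0 true) (h0 false))
      intro T hT S hS
      rw [Set.mem_singleton_iff] at hT
      subst hT
      show {a} ∪ S ⊆ insert a A
      intro i hi
      rcases Finset.mem_union.1 hi with h | h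
      · rw [Finset.mem_singleton.1 h]; exact Finset.mem_insert_self a A
      · exact Finset.mem_insert_of_mem (hS h)

lemma deg_Sp {k : ℕ} {f : (I → Bool) → K} (h : Deg k f) : f ∈ Sp K {T | T.card ≤ k} := by
  unfold Deg at h
  refine (Submodule.span_le.2 ?_ : Submodule.span K {g : (I → Bool) → K | Jun k g} ≤ _) h
  rintro g ⟨A, hA, hg⟩
  refine Sp_mono ?_ (dep_Sp A g hg)
  intro T hT
  exact (Finset.card_le_card hT).trans hA

end Span

section Main
variable {p k M : ℕ} [Fact p.Prime]

/-- the block of a function on `n` bits -/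
lemma block_Sp {n : ℕ} (i : Fin M) {g : (Fin n → Bool) → ZMod p} (hg : Deg k g) :
    (fun x : Fin M × Fin n → Bool => g (fun a => x (i, a))) ∈
      Sp (ZMod p) {T | (∀ q ∈ T, q.1 = i) ∧ T.card ≤ k} := by
  have h := deg_Sp hg
  clear hg
  unfold Sp at h
  induction h using Submodule.span_induction with
  | mem f hf =>
    obtain ⟨T, hT, rfl⟩ := hf
    have hT' : T.card ≤ k := hT
    have e : (fun x : Fin M × Fin n → Bool => (mon T (fun a => x (i, a)) : ZMod p)) =
        mon (T.map ⟨fun a => (i, a), fun a b hab => (Prod.mk.inj hab).2⟩) := by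
      funext x
      unfold mon
      rw [Finset.prod_map]
      rfl
    show (fun x : Fin M × Fin n → Bool => (mon T (fun a => x (i, a)) : ZMod p)) ∈ _
    rw [e]
    refine Sp_mon ⟨?_, ?_⟩
    · intro q hq
      obtain ⟨a, _, rfl⟩ := Finset.mem_map.1 hq
      rfl
    · rw [Finset.card_map]; exact hT'
  | zero => exact Submodule.zero_mem _
  | add a b _ _ ha hb => exact Submodule.add_mem _ ha hb
  | smul c a _ ha => exact Submodule.smul_mem _ c ha

/-- the families in the induction -/
def Fam (k : ℕ) {M n : ℕ} (J : Finset (Fin M)) (r : ℕ) : Set (Finset (Fin M × Fin n)) :=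
  {T | ∃ A S : Finset (Fin M × Fin n), T = A ∪ S ∧ (∀ q ∈ A, q.1 ∈ J) ∧
    (∀ i, (A.filter (fun q => q.1 = i)).card ≤ k) ∧ S.card ≤ r}

lemma prod_Sp {n Δ : ℕ} (G : Fin M → (Fin M × Fin n → Bool) → ZMod p)
    (hG : ∀ i, G i ∈ Sp (ZMod p) (Fam k {i} Δ)) (J : Finset (Fin M)) :
    (∏ i ∈ J, G i) ∈ Sp (ZMod p) (Fam k J (J.card * Δ)) := by
  classical
  induction J using Finset.induction_on with
  | empty =>
    rw [Finset.prod_empty]
    have h : (1 : (Fin M × Fin n → Bool) → ZMod p) = mon ∅ := by
      funext x
      rw [mon_true (by simp)]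
      rfl
    rw [h]
    exact Sp_mon ⟨∅, ∅, by simp, by simp, by simp, by simp⟩
  | insert a J ha ih =>
    rw [Finset.prod_insert ha, Finset.card_insert_of_notMem ha]
    refine Sp_mul ?_ (hG a) ih
    rintro _ ⟨A, S, rfl, hA, hA2, hS⟩ _ ⟨A', S', rfl, hA', hA2', hS'⟩
    refine ⟨A ∪ A', S ∪ S', ?_, ?_, ?_, ?_⟩
    · ext q
      simp only [Finset.mem_union]
      tauto
    · intro q hq
      rcases Finset.mem_union.1 hq with h | h
      · rw [Finset.mem_singleton.1 (hA q h)]
        exact Finset.mem_insert_self a J
      · exact Finset.mem_insert_of_mem (hA' q h)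
    · intro i
      by_cases hi : i = a
      · subst hi
        have e : (A ∪ A').filter (fun q => q.1 = i) = A.filter (fun q => q.1 = i) := by
          ext q
          simp only [Finset.mem_filter, Finset.mem_union]
          constructor
          · rintro ⟨h | h, h2⟩
            · exact ⟨h, h2⟩
            · exact absurd (h2 ▸ hA' q h) ha
          · rintro ⟨h, h2⟩
            exact ⟨Or.inl h, h2⟩
        rw [e]
        exact hA2 i
      · have e : (A ∪ A').filter (fun q => q.1 = i) = A'.filter (fun q => q.1 = i) := by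
          ext q
          simp only [Finset.mem_filter, Finset.mem_union]
          constructor
          · rintro ⟨h | h, h2⟩
            · exact absurd (h2.symm.trans (Finset.mem_singleton.1 (hA q h))) hi
            · exact ⟨h, h2⟩
          · rintro ⟨h, h2⟩
            exact ⟨Or.inr h, h2⟩
        rw [e]
        exact hA2' i
    · refine (Finset.card_union_le _ _).trans ?_
      rw [add_mul, one_mul]
      omega

lemma fam_exc {J : Finset (Fin M)} {r : ℕ} {T : Finset (Fin M × Fin (2 * k + 1))}
    (hT : T ∈ Fam k J r) : exc k T ≤ r := by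
  obtain ⟨A, S, rfl, _, hA, hS⟩ := hT
  unfold exc
  have h1 : ∀ i ∈ (univ : Finset (Fin M)), ((A ∪ S).filter (fun q => q.1 = i)).card - k ≤
      (S.filter (fun q => q.1 = i)).card := by
    intro i _
    rw [Finset.filter_union]
    have h2 := Finset.card_union_le (A.filter (fun q => q.1 = i)) (S.filter (fun q => q.1 = i))
    have h3 := hA i
    omega
  refine (Finset.sum_le_sum h1).trans ?_
  rw [← Finset.card_eq_sum_card_fiberwise (f := fun q : Fin M × Fin (2 * k + 1) => q.1)
    (s := S) (t := univ) (by intro q _; simp)]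
  exact hS

end Main

theorem p_dp : P_dp := by
  intro p k M Δ _ H hV P hP
  classical
  set X : Finset (Fin M × Fin (2 * k + 1) → Bool) :=
    univ.filter (fun x : Fin M × Fin (2 * k + 1) → Bool =>
      ∀ i, P i x = bv (ZMod p) (H (fun a => x (i, a)))) with hX
  set W : Submodule (ZMod p) ((Fin M × Fin (2 * k + 1) → Bool) → ZMod p) :=
    Sp (ZMod p) {T | exc k T ≤ M * Δ} with hW
  let ρ : ((Fin M × Fin (2 * k + 1) → Bool) → ZMod p) →ₗ[ZMod p] (X → ZMod p) :=
    LinearMap.funLeft (ZMod p) (ZMod p) (fun x : X => (x : Fin M × Fin (2 * k + 1) → Bool))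
  have key : W.map ρ = ⊤ := by
    rw [eq_top_iff, ← (Pi.basisFun (ZMod p) X).span_eq, Submodule.span_le]
    rintro _ ⟨a, rfl⟩
    choose g₁ g₂ h₁ h₂ hf using fun i : Fin M =>
      hV (fun y => if y = (fun b => (a : Fin M × Fin (2 * k + 1) → Bool) (i, b)) then 1 else 0)
    refine ⟨∏ i, ((fun x => g₁ i (fun b => x (i, b))) + (fun x => g₂ i (fun b => x (i, b))) * P i),
      ?_, ?_⟩
    · have h3 := prod_Sp (p := p) (k := k) (Δ := Δ) (fun i : Fin M =>
        ((fun x : Fin M × Fin (2 * k + 1) → Bool => g₁ i (fun b => x (i, b))) +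
          (fun x => g₂ i (fun b => x (i, b))) * P i)) ?_ univ
      · refine Sp_mono ?_ h3
        intro T hT
        have := fam_exc hT
        rwa [Finset.card_univ, Fintype.card_fin] at this
      · intro i
        have hfil : ∀ A : Finset (Fin M × Fin (2 * k + 1)), A.card ≤ k → ∀ j,
            (A.filter (fun q => q.1 = j)).card ≤ k := fun A hA j =>
          (Finset.card_le_card (Finset.filter_subset _ _)).trans hA
        refine Submodule.add_mem _ (Sp_mono ?_ (block_Sp i (h₁ i)))
          (Sp_mul ?_ (block_Sp i (h₂ i)) (deg_Sp (hP i)))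
        · rintro T ⟨hT1, hT2⟩
          exact ⟨T, ∅, by simp, fun q hq => by rw [hT1 q hq]; simp, hfil T hT2, by simp⟩
        · rintro T ⟨hT1, hT2⟩ S hS
          exact ⟨T, S, rfl, fun q hq => by rw [hT1 q hq]; simp, hfil T hT2, hS⟩
    · funext x
      have hx : ∀ i, P i x = bv (ZMod p) (H (fun b => (x : Fin M × Fin (2 * k + 1) → Bool) (i, b))) := by
        exact (Finset.mem_filter.1 x.2).2
      have e : ρ (∏ i, ((fun x : Fin M × Fin (2 * k + 1) → Bool => g₁ i (fun b => x (i, b))) +
          (fun x : Fin M × Fin (2 * k + 1) → Bool => g₂ i (fun b => x (i, b))) * P i)) x =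
          ∏ i, (g₁ i (fun b => (x : Fin M × Fin (2 * k + 1) → Bool) (i, b)) +
            g₂ i (fun b => (x : Fin M × Fin (2 * k + 1) → Bool) (i, b)) * P i x) := by
        show (∏ i, ((fun x : Fin M × Fin (2 * k + 1) → Bool => g₁ i (fun b => x (i, b))) +
          (fun x : Fin M × Fin (2 * k + 1) → Bool => g₂ i (fun b => x (i, b))) * P i))
            (x : Fin M × Fin (2 * k + 1) → Bool) = _
        rw [Finset.prod_apply]
        rfl
      rw [e, Pi.basisFun_apply]
      have e2 : ∀ i, g₁ i (fun b => (x : Fin M × Fin (2 * k + 1) → Bool) (i, b)) +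
            g₂ i (fun b => (x : Fin M × Fin (2 * k + 1) → Bool) (i, b)) * P i x =
          if (fun b => (x : Fin M × Fin (2 * k + 1) → Bool) (i, b)) =
            (fun b => (a : Fin M × Fin (2 * k + 1) → Bool) (i, b)) then 1 else 0 := by
        intro i
        rw [hx i, ← hf i]
      rw [Finset.prod_congr rfl fun i _ => e2 i]
      by_cases hxa : x = a
      · subst hxa
        simp
      · rw [Pi.single_eq_of_ne hxa]
        obtain ⟨q, hq⟩ : ∃ q, (x : Fin M × Fin (2 * k + 1) → Bool) q ≠
            (a : Fin M × Fin (2 * k + 1) → Bool) q := by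
          by_contra hcon
          push Not at hcon
          exact hxa (Subtype.ext (funext hcon))
        apply Finset.prod_eq_zero (Finset.mem_univ q.1)
        rw [if_neg]
        intro h
        exact hq (congrFun h q.2)
  have h1 : Module.finrank (ZMod p) (W.map ρ) = X.card := by
    rw [key, finrank_top, Module.finrank_fintype_fun_eq_card, Fintype.card_coe]
  have h2 : Module.finrank (ZMod p) (W.map ρ) ≤ Module.finrank (ZMod p) W :=
    Submodule.finrank_map_le ρ W
  have h3 : Module.finrank (ZMod p) W ≤
      (univ.filter (fun T : Finset (Fin M × Fin (2 * k + 1)) => exc k T ≤ M * Δ)).card := by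
    have e : W = Submodule.span (ZMod p)
        (((univ.filter (fun T : Finset (Fin M × Fin (2 * k + 1)) => exc k T ≤ M * Δ)).image
          (fun T => (mon T : (Fin M × Fin (2 * k + 1) → Bool) → ZMod p)) : Finset _) : Set _) := by
      rw [hW]
      unfold Sp
      congr 1
      ext f
      simp
    rw [e]
    exact (finrank_span_finset_le_card _).trans Finset.card_image_le
  rw [← h1]
  exact h2.trans h3

end Pool.Agent.W2helper2.MC
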